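import Pool.Agent.W606.PS.Stm

/-!
Project PS: the part S_NORM.
-/

set_option autoImplicit false

open Set Relation

namespace Pool.Agent.W174.PS.Norm

open Pool.Agent.W606.PS

theorem two_case {V T : Type} (G : SimpleGraph V) (tv : T → Fin 3 → V) (N : ℕ)
    (C : ℕ → Finset ℕ) (part : V → ℕ) (Om : Set V)
    (h : ∃ (Z₀ Z₁ : Set V) (x₀ x₁ : ℕ), Con G Z₀ ∧ Con G Z₁ ∧ Disjoint Z₀ Z₁ ∧ Z₀ ∪ Z₁ = Omᶜ ∧
      Tch G Z₀ Z₁ ∧ x₀ < N ∧ x₁ < N ∧ Cl C x₀ x₁ ∧
      (∀ z ∈ Nb G Om, z ∈ Z₀ → part z = x₀) ∧ (∀ z ∈ Nb G Om, z ∈ Z₁ → part z = x₁)) :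
    RegN G tv N C part Om := by
  obtain ⟨Z₀, Z₁, x₀, x₁, c0, c1, hd, hu, ht, h0, h1, hC, hz0, hz1⟩ := h
  by_cases t0 : Tch G Om Z₀
  · by_cases t1 : Tch G Om Z₁
    · exact Or.inr (Or.inl ⟨Z₀, Z₁, x₀, x₁, c0, c1, hd, hu, ht, t0, t1, h0, h1, hC, hz0, hz1⟩)
    · refine Or.inl ⟨x₀, h0, ?_, ?_⟩
      · rw [← hu]; exact c0.union_tch c1 ht
      · intro z hz
        have hz' : z ∈ Z₀ ∪ Z₁ := by rw [hu]; exact hz.1
        rcases hz' with h | h
        · exact hz0 z hz h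
        · exfalso
          obtain ⟨-, u, hu', e⟩ := hz
          exact t1 ⟨u, hu', z, h, e⟩
  · refine Or.inl ⟨x₁, h1, ?_, ?_⟩
    · rw [← hu]; exact c0.union_tch c1 ht
    · intro z hz
      have hz' : z ∈ Z₀ ∪ Z₁ := by rw [hu]; exact hz.1
      rcases hz' with h | h
      · exfalso
        obtain ⟨-, u, hu', e⟩ := hz
        exact t0 ⟨u, hu', z, h, e⟩
      · exact hz1 z hz h

theorem rain_tch {V T : Type} {G : SimpleGraph V} {tv : T → Fin 3 → V} (hS : Sph G tv)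
    {Z : Fin 3 → Set V} (hd : ∀ i j, i ≠ j → Disjoint (Z i) (Z j)) {t : T} (ht : Rain tv Z t)
    (i j : Fin 3) (hij : i ≠ j) : Tch G (Z i) (Z j) := by
  obtain ⟨s, hs⟩ := ht
  rcases hS.clos t (s i) (s j) with h | h
  · exfalso
    exact Set.disjoint_left.1 (hd i j hij) (hs i) (by rw [h]; exact hs j)
  · exact ⟨_, hs i, _, hs j, h⟩

theorem main : S_NORM := by
  intro V T G tv hS N C part Om hOm hR
  rcases hR with h | h | h
  · exact Or.inl h
  · exact two_case G tv N C part Om h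
  · obtain ⟨Z, x, hc, hd, hu, ⟨t, ht⟩, hx, hC, hz⟩ := h
    by_cases hall : ∀ i, Tch G Om (Z i)
    · exact Or.inr (Or.inr ⟨Z, x, ⟨hOm, hc, hd, hu, ⟨t, ht⟩, hall⟩, hx, hC, hz⟩)
    · push Not at hall
      obtain ⟨k, hk⟩ := hall
      apply two_case
      have e1 : k + 1 ≠ k := (by decide : ∀ k : Fin 3, k + 1 ≠ k) k
      have e2 : k + 2 ≠ k := (by decide : ∀ k : Fin 3, k + 2 ≠ k) k
      have e3 : k + 1 ≠ k + 2 := (by decide : ∀ k : Fin 3, k + 1 ≠ k + 2) k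
      have e4 : ∀ m : Fin 3, m = k + 1 ∨ m = k + 2 ∨ m = k :=
        (by decide : ∀ k m : Fin 3, m = k + 1 ∨ m = k + 2 ∨ m = k) k
      refine ⟨Z (k + 1) ∪ Z k, Z (k + 2), x (k + 1), x (k + 2), ?_, hc _, ?_, ?_, ?_, hx _, hx _,
        hC _ _, ?_, hz _⟩
      · exact (hc _).union_tch (hc _) (rain_tch hS hd ht _ _ e1)
      · exact Set.disjoint_union_left.2 ⟨hd _ _ e3, hd _ _ (Ne.symm e2)⟩
      · rw [← hu]
        ext v
        simp only [mem_union, mem_iUnion]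
        constructor
        · rintro ((h | h) | h)
          · exact ⟨_, h⟩
          · exact ⟨_, h⟩
          · exact ⟨_, h⟩
        · rintro ⟨m, hm⟩
          rcases e4 m with h | h | h
          · rw [h] at hm; exact Or.inl (Or.inl hm)
          · rw [h] at hm; exact Or.inr hm
          · rw [h] at hm; exact Or.inl (Or.inr hm)
      · obtain ⟨u, hu', v, hv, e⟩ := rain_tch hS hd ht _ _ e3
        exact ⟨u, Or.inl hu', v, hv, e⟩
      · intro z hzN hzZ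
        rcases hzZ with h | h
        · exact hz _ z hzN h
        · exfalso
          obtain ⟨-, u, hu', e⟩ := hzN
          exact hk ⟨u, hu', z, h, e⟩

end Pool.Agent.W174.PS.Norm
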